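import Mathlib

/-!
Fields of formal Laurent series in `T⁻¹` over a finite field `F`: the absolute value, the
embedding of `F[T]`, heights, minimal defining polynomials and the exponents `ŵ_n`, `ŵ_n^*`.
The underlying type is Mathlib's `LaurentSeries F`, whose variable plays the role of `T⁻¹`.
-/

namespace Pool.Agent.R330.MA
open Polynomial

section Defs
variable (F : Type) [Field F] [Fintype F]

/-- The element `T` of `F((T⁻¹))` (the variable of `LaurentSeries F` is `T⁻¹`). -/
noncomputable def T : LaurentSeries F := HahnSeries.single (-1 : ℤ) (1 : F)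

/-- The embedding `F[T] → F((T⁻¹))` -/
noncomputable def emb : F[X] →+* LaurentSeries F := eval₂RingHom HahnSeries.C (T F)

variable {F}

/-- The absolute value `|x| = q^{-N}`, where `a_N T^{-N}` is the leading term of `x`; `|0| = 0`. -/
noncomputable def nm (x : LaurentSeries F) : ℝ := by
  classical exact if x = 0 then 0 else (Fintype.card F : ℝ) ^ (-x.order)

/-- The value `P(x)` of `P ∈ F[T][X]` at `x ∈ F((T⁻¹))`. -/
noncomputable def val (P : F[X][X]) (x : LaurentSeries F) : LaurentSeries F :=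
  P.eval₂ (emb F) x

/-- The height of `P ∈ F[T][X]`: the maximum of the absolute values of its coefficients. -/
noncomputable def ht (P : F[X][X]) : ℝ :=
  (Finset.range (P.natDegree + 1)).sup' ⟨0, by simp⟩ (fun i => nm (emb F (P.coeff i)))

/-- `P` is a minimal defining polynomial over `F[T]` of `x`: irreducible in `F[T][X]`, and
`P(x) = 0`. -/
def IsMinDef (P : F[X][X]) (x : LaurentSeries F) : Prop := Irreducible P ∧ val P x = 0

/-- The uniform exponent `ŵ_n(x)`. -/
noncomputable def hatw (n : ℕ) (x : LaurentSeries F) : EReal :=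
  sSup {w : EReal | ∃ r : ℝ, w = r ∧ ∃ H₀ : ℝ, ∀ H : ℝ, H₀ < H →
    ∃ P : F[X][X], P.natDegree ≤ n ∧ ht P ≤ H ∧ 0 < nm (val P x) ∧ nm (val P x) < H ^ (-r)}

/-- The uniform exponent `ŵ_n^*(x)`. -/
noncomputable def hatwStar (n : ℕ) (x : LaurentSeries F) : EReal :=
  sSup {w : EReal | ∃ r : ℝ, w = r ∧ ∃ H₀ : ℝ, ∀ H : ℝ, H₀ < H →
    ∃ (α : LaurentSeries F) (P : F[X][X]), IsMinDef P α ∧ P.natDegree ≤ n ∧ ht P ≤ H ∧
      0 < nm (x - α) ∧ nm (x - α) < (ht P)⁻¹ * H ^ (-r)}

end Defs

section Lemmas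
variable {F : Type} [Field F] [Fintype F]

lemma q_gt_one : (1 : ℝ) < (Fintype.card F : ℝ) := by
  exact_mod_cast Fintype.one_lt_card

lemma q_pos : (0 : ℝ) < (Fintype.card F : ℝ) := lt_trans one_pos q_gt_one

@[simp] lemma nm_zero : nm (0 : LaurentSeries F) = 0 := by simp [nm]

lemma nm_of_ne {x : LaurentSeries F} (hx : x ≠ 0) :
    nm x = (Fintype.card F : ℝ) ^ (-x.order) := by simp [nm, hx]

lemma nm_nonneg (x : LaurentSeries F) : 0 ≤ nm x := by
  unfold nm
  split_ifs
  · exact le_refl _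
  · exact (zpow_pos q_pos _).le

lemma nm_pos {x : LaurentSeries F} (hx : x ≠ 0) : 0 < nm x := by
  rw [nm_of_ne hx]; exact zpow_pos q_pos _

lemma nm_eq_zero {x : LaurentSeries F} : nm x = 0 ↔ x = 0 := by
  constructor
  · intro h
    by_contra hx
    exact (nm_pos hx).ne' h
  · rintro rfl; simp

lemma nm_one : nm (1 : LaurentSeries F) = 1 := by
  rw [nm_of_ne one_ne_zero]; simp

lemma nm_mul (x y : LaurentSeries F) : nm (x * y) = nm x * nm y := by
  by_cases hx : x = 0
  · simp [hx]
  by_cases hy : y = 0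
  · simp [hy]
  rw [nm_of_ne hx, nm_of_ne hy, nm_of_ne (mul_ne_zero hx hy), HahnSeries.order_mul hx hy,
    ← zpow_add₀ q_pos.ne']
  congr 1; ring

lemma nm_pow (x : LaurentSeries F) (n : ℕ) : nm (x ^ n) = nm x ^ n := by
  induction n with
  | zero => simp [nm_one]
  | succ n ih => rw [pow_succ, nm_mul, ih, pow_succ]

lemma nm_neg (x : LaurentSeries F) : nm (-x) = nm x := by
  by_cases hx : x = 0
  · simp [hx]
  rw [nm_of_ne hx, nm_of_ne (neg_ne_zero.mpr hx), HahnSeries.order_neg]

lemma nm_add_le (x y : LaurentSeries F) : nm (x + y) ≤ max (nm x) (nm y) := by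
  by_cases hx : x = 0
  · simp [hx]
  by_cases hy : y = 0
  · simp [hy]
  by_cases hxy : x + y = 0
  · rw [hxy, nm_zero]; exact le_max_of_le_left (nm_nonneg x)
  rw [nm_of_ne hx, nm_of_ne hy, nm_of_ne hxy]
  have h := HahnSeries.min_order_le_order_add hxy
  rcases le_total x.order y.order with h1 | h1
  · rw [min_eq_left h1] at h
    apply le_max_of_le_left
    exact zpow_le_zpow_right₀ q_gt_one.le (by omega)
  · rw [min_eq_right h1] at h
    apply le_max_of_le_right
    exact zpow_le_zpow_right₀ q_gt_one.le (by omega)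

lemma nm_sub_le (x y : LaurentSeries F) : nm (x - y) ≤ max (nm x) (nm y) := by
  rw [sub_eq_add_neg, ← nm_neg y]; exact nm_add_le _ _

lemma nm_sub_comm (x y : LaurentSeries F) : nm (x - y) = nm (y - x) := by
  rw [← nm_neg, neg_sub]

lemma nm_add_eq_of_lt {x y : LaurentSeries F} (h : nm y < nm x) : nm (x + y) = nm x := by
  apply le_antisymm
  · exact (nm_add_le x y).trans (by rw [max_eq_left h.le])
  · have h1 : nm x ≤ max (nm (x + y)) (nm y) := by
      have := nm_sub_le (x + y) y
      simpa using this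
    rcases le_max_iff.mp h1 with h2 | h2
    · exact h2
    · linarith

lemma nm_sum_le {ι : Type} (s : Finset ι) (f : ι → LaurentSeries F) (B : ℝ) (hB : 0 ≤ B)
    (h : ∀ i ∈ s, nm (f i) ≤ B) : nm (∑ i ∈ s, f i) ≤ B := by
  classical
  induction s using Finset.induction_on with
  | empty => simpa using hB
  | insert a s ha ih =>
    rw [Finset.sum_insert ha]
    refine (nm_add_le _ _).trans (max_le (h a (by simp)) (ih fun i hi => h i (by simp [hi])))

lemma nm_T : nm (T F) = (Fintype.card F : ℝ) := by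
  have h : T F ≠ 0 := by
    unfold T; simp
  rw [nm_of_ne h]
  unfold T
  rw [HahnSeries.order_single one_ne_zero]; simp

lemma T_ne : T F ≠ 0 := by unfold T; simp

lemma nm_C {a : F} (ha : a ≠ 0) : nm (HahnSeries.C a : LaurentSeries F) = 1 := by
  have h : (HahnSeries.C a : LaurentSeries F) ≠ 0 := by
    simpa using ha
  rw [nm_of_ne h, HahnSeries.order_C]; simp

@[simp] lemma emb_X : emb F X = T F := by simp [emb]
@[simp] lemma emb_C (a : F) : emb F (C a) = HahnSeries.C a := by simp [emb]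

lemma emb_eq_sum (R : F[X]) : emb F R =
    ∑ i ∈ Finset.range (R.natDegree + 1), HahnSeries.C (R.coeff i) * (T F) ^ i := by
  unfold emb
  rw [coe_eval₂RingHom, eval₂_eq_sum_range]

lemma nm_term_le (R : F[X]) (i : ℕ) :
    nm (HahnSeries.C (R.coeff i) * (T F) ^ i) ≤ (Fintype.card F : ℝ) ^ i := by
  by_cases h : R.coeff i = 0
  · simp [h]; 
  · rw [nm_mul, nm_C h, nm_pow, nm_T, one_mul]

/-- `|R| = q^{deg R}` for nonzero `R ∈ F[T]`. -/
lemma nm_emb {R : F[X]} (hR : R ≠ 0) : nm (emb F R) = (Fintype.card F : ℝ) ^ R.natDegree := by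
  rw [emb_eq_sum, Finset.sum_range_succ, add_comm]
  have h1 : nm (HahnSeries.C (R.coeff R.natDegree) * (T F) ^ R.natDegree) =
      (Fintype.card F : ℝ) ^ R.natDegree := by
    rw [nm_mul, nm_C (by simpa using hR), nm_pow, nm_T, one_mul]
  rw [nm_add_eq_of_lt, h1]
  rw [h1]
  rcases Nat.eq_zero_or_pos R.natDegree with h0 | h0
  · rw [h0]; simp
  · refine lt_of_le_of_lt (nm_sum_le _ _ ((Fintype.card F : ℝ) ^ (R.natDegree - 1))
      (pow_pos q_pos _).le ?_) ?_
    · intro i hi
      refine (nm_term_le R i).trans (pow_le_pow_right₀ q_gt_one.le ?_)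
      have := Finset.mem_range.mp hi
      omega
    · exact pow_lt_pow_right₀ q_gt_one (by omega)

lemma one_le_nm_emb {R : F[X]} (hR : R ≠ 0) : 1 ≤ nm (emb F R) := by
  rw [nm_emb hR]; exact one_le_pow₀ q_gt_one.le

lemma emb_injective : Function.Injective (emb F) := by
  rw [injective_iff_map_eq_zero]
  intro R h
  by_contra hR
  have := one_le_nm_emb hR
  rw [h, nm_zero] at this
  linarith

lemma nm_emb_coeff_le (P : F[X][X]) (i : ℕ) : nm (emb F (P.coeff i)) ≤ ht P := by
  by_cases hi : i ≤ P.natDegree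
  · exact Finset.le_sup' (fun i => nm (emb F (P.coeff i))) (by simpa using Nat.lt_succ_of_le hi)
  · rw [coeff_eq_zero_of_natDegree_lt (by omega)]
    simp only [map_zero, nm_zero]
    exact (nm_nonneg _).trans
      (Finset.le_sup' (fun i => nm (emb F (P.coeff i))) (Finset.mem_range.mpr (Nat.succ_pos _)))

lemma ht_nonneg (P : F[X][X]) : 0 ≤ ht P := (nm_nonneg _).trans (nm_emb_coeff_le P 0)

lemma one_le_ht {P : F[X][X]} (hP : P ≠ 0) : 1 ≤ ht P := by
  have h : P.coeff P.natDegree ≠ 0 := by simpa using hP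
  exact (one_le_nm_emb h).trans (nm_emb_coeff_le P _)

lemma val_eq_sum (P : F[X][X]) (x : LaurentSeries F) : val P x =
    ∑ i ∈ Finset.range (P.natDegree + 1), emb F (P.coeff i) * x ^ i := by
  unfold val; rw [eval₂_eq_sum_range]

lemma pow_sub_pow_le {x y : LaurentSeries F} (hx : nm x ≤ 1) (hy : nm y ≤ 1) (i : ℕ) :
    nm (x ^ i - y ^ i) ≤ nm (x - y) := by
  induction i with
  | zero => simp [nm_nonneg]
  | succ i ih =>
    have h : x ^ (i + 1) - y ^ (i + 1) = x * (x ^ i - y ^ i) + (x - y) * y ^ i := by ring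
    rw [h]
    refine (nm_add_le _ _).trans (max_le ?_ ?_)
    · rw [nm_mul]
      calc nm x * nm (x ^ i - y ^ i) ≤ 1 * nm (x - y) :=
            mul_le_mul hx ih (nm_nonneg _) zero_le_one
        _ = _ := one_mul _
    · rw [nm_mul, nm_pow]
      calc nm (x - y) * nm y ^ i ≤ nm (x - y) * 1 :=
            mul_le_mul_of_nonneg_left (pow_le_one₀ (nm_nonneg _) hy) (nm_nonneg _)
        _ = _ := mul_one _

lemma val_sub_le (P : F[X][X]) {x y : LaurentSeries F} (hx : nm x ≤ 1) (hy : nm y ≤ 1) :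
    nm (val P x - val P y) ≤ ht P * nm (x - y) := by
  rw [val_eq_sum, val_eq_sum, ← Finset.sum_sub_distrib]
  apply nm_sum_le _ _ _ (mul_nonneg (ht_nonneg P) (nm_nonneg _))
  intro i _
  rw [← mul_sub, nm_mul]
  exact mul_le_mul (nm_emb_coeff_le P i) (pow_sub_pow_le hx hy i) (nm_nonneg _) (ht_nonneg P)

end Lemmas

end Pool.Agent.R330.MA
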