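import Pool.Agent.R330.MA.Basic

/-!
Mahler's series `ξ = T⁻¹ + T^{-p} + T^{-p²} + ⋯` over `F_p`: degree `p`, and
`ŵ_n^*(ξ) ≤ (p-1)/(p-n) < n` for `2 ≤ n ≤ p - 2`.
-/

namespace Pool.Agent.R330.MA
open Polynomial

section General
variable {F : Type} [Field F] [Fintype F]

lemma emb_ne {b : F[X]} (hb : b ≠ 0) : emb F b ≠ 0 := by
  intro h; exact hb (emb_injective (by simpa using h))

/-- If `P(a/b) = 0` with `a, b` coprime, then `bX - a` divides `P` in `F[T][X]`. -/
lemma lin_dvd {a b : F[X]} (hb : b ≠ 0) (hab : IsCoprime a b) {P : F[X][X]}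
    (h : val P (emb F a / emb F b) = 0) : (C b * X + C (-a)) ∣ P := by
  set K := FractionRing F[X] with hK
  set lift : K →+* LaurentSeries F := IsFractionRing.lift (emb_injective (F := F)) with hlift
  have hl : ∀ r : F[X], lift (algebraMap F[X] K r) = emb F r := fun r =>
    IsFractionRing.lift_algebraMap _ r
  have hbK : algebraMap F[X] K b ≠ 0 := by
    intro h0
    apply hb
    have := (FaithfulSMul.algebraMap_injective F[X] K) (a₁ := b) (a₂ := 0) (by simpa using h0)
    exact this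
  have hirr : Irreducible (C b * X + C (-a) : F[X][X]) := by
    apply irreducible_C_mul_X_add_C hb
    exact (hab.symm.neg_right).isRelPrime
  have hprim : (C b * X + C (-a) : F[X][X]).IsPrimitive := by
    apply hirr.isPrimitive
    rw [natDegree_linear hb]; norm_num
  apply hprim.dvd_of_fraction_map_dvd_fraction_map (K := K)
  have hroot : (P.map (algebraMap F[X] K)).eval (algebraMap F[X] K a / algebraMap F[X] K b) = 0 := by
    apply lift.injective
    rw [map_zero, eval_map, hom_eval₂, map_div₀, hl, hl]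
    rw [← h]
    unfold val
    congr 1
    exact RingHom.ext hl
  have h1 : (X - C (algebraMap F[X] K a / algebraMap F[X] K b)) ∣ P.map (algebraMap F[X] K) :=
    dvd_iff_isRoot.mpr hroot
  have h2 : (C b * X + C (-a) : F[X][X]).map (algebraMap F[X] K) =
      C (algebraMap F[X] K b) * (X - C (algebraMap F[X] K a / algebraMap F[X] K b)) := by
    rw [mul_sub, ← C_mul, mul_div_cancel₀ _ hbK]
    simp [sub_eq_add_neg]
  rw [h2]
  rw [IsUnit.mul_left_dvd]
  · exact h1
  · exact isUnit_C.mpr (isUnit_iff_ne_zero.mpr hbK)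

lemma ht_ge_of_dvd {a b : F[X]} (hb : b ≠ 0) {P : F[X][X]} (hP : P ≠ 0)
    (h : (C b * X + C (-a)) ∣ P) : nm (emb F b) ≤ ht P := by
  obtain ⟨M, rfl⟩ := h
  have hM : M ≠ 0 := by rintro rfl; simp at hP
  have h1 : (C b * X + C (-a) : F[X][X]).leadingCoeff = b := leadingCoeff_linear hb
  have h2 : nm (emb F ((C b * X + C (-a) : F[X][X]) * M).leadingCoeff) =
      nm (emb F b) * nm (emb F M.leadingCoeff) := by
    rw [leadingCoeff_mul, h1, map_mul, nm_mul]
  have h3 : 1 ≤ nm (emb F M.leadingCoeff) := one_le_nm_emb (by simpa using hM)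
  calc nm (emb F b) ≤ nm (emb F b) * nm (emb F M.leadingCoeff) :=
        le_mul_of_one_le_right (nm_nonneg _) h3
    _ = nm (emb F ((C b * X + C (-a) : F[X][X]) * M).leadingCoeff) := h2.symm
    _ ≤ _ := nm_emb_coeff_le _ _

lemma val_lower {a b : F[X]} (hb : b ≠ 0) {P : F[X][X]}
    (h : val P (emb F a / emb F b) ≠ 0) :
    1 ≤ nm (emb F b) ^ P.natDegree * nm (val P (emb F a / emb F b)) := by
  have hb' := emb_ne hb
  have h1 : (emb F b) ^ P.natDegree * val P (emb F a / emb F b) =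
      emb F (∑ i ∈ Finset.range (P.natDegree + 1), P.coeff i * a ^ i * b ^ (P.natDegree - i)) := by
    rw [val_eq_sum, Finset.mul_sum, map_sum]
    apply Finset.sum_congr rfl
    intro i hi
    have hi' : i ≤ P.natDegree := by have := Finset.mem_range.mp hi; omega
    rw [map_mul, map_mul, map_pow, map_pow]
    obtain ⟨j, hj⟩ := Nat.exists_eq_add_of_le hi'
    rw [hj]
    simp only [Nat.add_sub_cancel_left]
    rw [div_pow]
    field_simp
    ring
  rw [← nm_pow, ← nm_mul, h1]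
  apply one_le_nm_emb
  intro h0
  rw [h0, map_zero] at h1
  rcases mul_eq_zero.mp h1 with h2 | h2
  · exact (pow_ne_zero _ hb') h2
  · exact h h2

end General

section Mahler
variable (p : ℕ) [hp : Fact p.Prime]

/-- Mahler's series `T⁻¹ + T^{-p} + T^{-p²} + ⋯ ∈ F_p((T⁻¹))`: the coefficient of `T^{-n}` is `1`
if `n` is a power `p^j` (`j ≥ 0`) of `p`, and `0` otherwise. -/
noncomputable def mahler : LaurentSeries (ZMod p) := by
  classical exact (HahnSeries.ofPowerSeries ℤ (ZMod p)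
    (PowerSeries.mk fun n => if ∃ j : ℕ, n = p ^ j then 1 else 0))

/-- `T⁻¹`. -/
noncomputable def u : LaurentSeries (ZMod p) := HahnSeries.single (1 : ℤ) (1 : ZMod p)

/-- The partial sums. -/
noncomputable def S (k : ℕ) : LaurentSeries (ZMod p) := ∑ j ∈ Finset.range (k + 1), (u p) ^ (p ^ j)

/-- The denominators `Q_k = T^{p^k}`. -/
noncomputable def Q (k : ℕ) : (ZMod p)[X] := X ^ (p ^ k)

/-- The numerators. -/
noncomputable def N (k : ℕ) : (ZMod p)[X] := ∑ j ∈ Finset.range (k + 1), X ^ (p ^ k - p ^ j)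

lemma T_mul_u : T (ZMod p) * u p = 1 := by
  unfold T u
  rw [HahnSeries.single_mul_single]
  simp

lemma u_pow (m : ℕ) : (u p) ^ m = HahnSeries.single (m : ℤ) (1 : ZMod p) := by
  unfold u
  rw [HahnSeries.single_pow]; simp

lemma card_eq : (Fintype.card (ZMod p) : ℝ) = (p : ℝ) := by rw [ZMod.card]

lemma nm_u : nm (u p) = (p : ℝ)⁻¹ := by
  have h : nm (T (ZMod p)) * nm (u p) = 1 := by rw [← nm_mul, T_mul_u, nm_one]
  rw [nm_T, card_eq] at h
  exact eq_inv_of_mul_eq_one_right h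

lemma one_lt_p : (1 : ℝ) < p := by exact_mod_cast hp.out.one_lt

lemma p_pos : (0 : ℝ) < p := lt_trans one_pos (one_lt_p p)

/-- `H_k = |Q_k| = p^{p^k}`. -/
noncomputable def Hk (k : ℕ) : ℝ := (p : ℝ) ^ (p ^ k)

lemma Hk_pos (k : ℕ) : 0 < Hk p k := pow_pos (p_pos p) _

lemma one_lt_Hk (k : ℕ) : 1 < Hk p k :=
  one_lt_pow₀ (one_lt_p p) (pow_pos hp.out.pos _).ne'

lemma Q_ne (k : ℕ) : Q p k ≠ 0 := pow_ne_zero _ X_ne_zero

lemma nm_Q (k : ℕ) : nm (emb (ZMod p) (Q p k)) = Hk p k := by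
  unfold Q Hk
  rw [map_pow, emb_X, nm_pow, nm_T, card_eq]

lemma S_mul_Q (k : ℕ) : emb (ZMod p) (N p k) = S p k * emb (ZMod p) (Q p k) := by
  unfold N S Q
  rw [map_sum, Finset.sum_mul]
  apply Finset.sum_congr rfl
  intro j hj
  have hj' : p ^ j ≤ p ^ k := Nat.pow_le_pow_right hp.out.pos (by
    have := Finset.mem_range.mp hj; omega)
  rw [map_pow, map_pow, emb_X]
  obtain ⟨m, hm⟩ := Nat.exists_eq_add_of_le hj'
  rw [hm, Nat.add_sub_cancel_left, pow_add, ← mul_assoc, ← mul_pow, mul_comm (u p), T_mul_u]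
  simp

lemma S_eq (k : ℕ) : S p k = emb (ZMod p) (N p k) / emb (ZMod p) (Q p k) := by
  rw [eq_div_iff (emb_ne (Q_ne p k)), S_mul_Q]

lemma coprime (k : ℕ) : IsCoprime (N p k) (Q p k) := by
  unfold Q
  apply IsCoprime.pow_right
  have h0 : (N p k).coeff 0 ≠ 0 := by
    unfold N
    rw [finsetSum_coeff, Finset.sum_range_succ, Finset.sum_eq_zero]
    · simp
    · intro j hj
      have hj' : p ^ j < p ^ k := Nat.pow_lt_pow_right hp.out.one_lt (by
        have := Finset.mem_range.mp hj; omega)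
      rw [coeff_X_pow, if_neg (by omega)]
  have hX : ¬ ((X : (ZMod p)[X]) ∣ N p k) := by
    rw [X_dvd_iff]; exact h0
  exact ((irreducible_X (R := ZMod p)).coprime_iff_not_dvd.mpr hX).symm

open Classical in
lemma coeff_mahler (n : ℕ) : (mahler p).coeff (n : ℤ) = if ∃ j : ℕ, n = p ^ j then 1 else 0 := by
  unfold mahler
  rw [HahnSeries.ofPowerSeries_apply_coeff, PowerSeries.coeff_mk]

lemma coeff_mahler_neg (n : ℤ) (hn : n < 0) : (mahler p).coeff n = 0 := by
  unfold mahler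
  rw [HahnSeries.ofPowerSeries_apply]
  apply HahnSeries.embDomain_notin_image_support
  rintro ⟨m, _, hm⟩
  simp at hm
  omega

lemma coeff_S (k : ℕ) (n : ℤ) : (S p k).coeff n =
    ∑ j ∈ Finset.range (k + 1), if n = (p ^ j : ℕ) then (1 : ZMod p) else 0 := by
  unfold S
  rw [HahnSeries.coeff_sum]
  apply Finset.sum_congr rfl
  intro j _
  rw [u_pow, HahnSeries.coeff_single]
  split_ifs <;> rfl

open Classical in
lemma coeff_S_lt (k : ℕ) (n : ℕ) (hn : n < p ^ (k + 1)) :
    (S p k).coeff (n : ℤ) = if ∃ j : ℕ, n = p ^ j then 1 else 0 := by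
  rw [coeff_S]
  split_ifs with h
  · obtain ⟨j, rfl⟩ := h
    have hj : j < k + 1 := (Nat.pow_lt_pow_iff_right hp.out.one_lt).mp hn
    rw [Finset.sum_eq_single j]
    · simp
    · intro i _ hij
      rw [if_neg]
      intro h
      apply hij
      have h' : p ^ j = p ^ i := by exact_mod_cast h
      exact (Nat.pow_right_injective hp.out.two_le h').symm
    · intro h; exact absurd (Finset.mem_range.mpr hj) h
  · apply Finset.sum_eq_zero
    intro i _
    rw [if_neg]
    intro h'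
    exact h ⟨i, by exact_mod_cast h'⟩

lemma coeff_S_top (k : ℕ) : (S p k).coeff ((p ^ (k + 1) : ℕ) : ℤ) = 0 := by
  rw [coeff_S]
  apply Finset.sum_eq_zero
  intro i hi
  rw [if_neg]
  intro h
  have h' : p ^ (k + 1) = p ^ i := by exact_mod_cast h
  have := Nat.pow_right_injective hp.out.two_le h'
  have := Finset.mem_range.mp hi
  omega

lemma coeff_S_neg (k : ℕ) (n : ℤ) (hn : n < 0) : (S p k).coeff n = 0 := by
  rw [coeff_S]
  apply Finset.sum_eq_zero
  intro i _
  rw [if_neg]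
  intro h
  have : (0 : ℤ) ≤ (p ^ i : ℕ) := by positivity
  omega

lemma Hk_succ (k : ℕ) : Hk p (k + 1) = Hk p k ^ p := by
  unfold Hk
  rw [pow_succ, pow_mul]

/-- `|ξ - P_k/Q_k| = |Q_k|^{-p}`. -/
lemma nm_sub_S (k : ℕ) : nm (mahler p - S p k) = (Hk p k ^ p)⁻¹ := by
  have hc : (mahler p - S p k).coeff ((p ^ (k + 1) : ℕ) : ℤ) = 1 := by
    rw [HahnSeries.coeff_sub, coeff_mahler, if_pos ⟨k + 1, rfl⟩, coeff_S_top, sub_zero]
  have hne : mahler p - S p k ≠ 0 := by
    intro h
    rw [h] at hc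
    simp at hc
  have hord : (mahler p - S p k).order = ((p ^ (k + 1) : ℕ) : ℤ) := by
    apply le_antisymm
    · apply HahnSeries.order_le_of_coeff_ne_zero
      rw [hc]; exact one_ne_zero
    · rw [HahnSeries.le_order_iff_forall hne]
      intro j hj
      rcases lt_or_ge j 0 with h0 | h0
      · rw [HahnSeries.coeff_sub, coeff_mahler_neg p j h0, coeff_S_neg p k j h0, sub_zero]
      · obtain ⟨m, rfl⟩ := Int.eq_ofNat_of_zero_le h0
        have hm : m < p ^ (k + 1) := by exact_mod_cast hj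
        rw [HahnSeries.coeff_sub, coeff_mahler, coeff_S_lt p k m hm, sub_self]
  rw [nm_of_ne hne, hord, card_eq, ← Hk_succ]
  unfold Hk
  rw [zpow_neg, zpow_natCast]

lemma nm_S_le (k : ℕ) : nm (S p k) ≤ 1 := by
  unfold S
  apply nm_sum_le _ _ _ zero_le_one
  intro j _
  rw [nm_pow, nm_u]
  exact pow_le_one₀ (inv_nonneg.mpr (p_pos p).le) (inv_le_one_of_one_le₀ (one_lt_p p).le)

lemma nm_mahler_le : nm (mahler p) ≤ 1 := by
  have h : mahler p = (mahler p - S p 0) + S p 0 := by ring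
  rw [h]
  refine (nm_add_le _ _).trans (max_le ?_ (nm_S_le p 0))
  rw [nm_sub_S]
  exact inv_le_one_of_one_le₀ (one_le_pow₀ (one_lt_Hk p 0).le)

lemma Hk_ge (k : ℕ) : (k : ℝ) ≤ Hk p k := by
  unfold Hk
  have h1 : k < p ^ k := Nat.lt_pow_self hp.out.one_lt
  have h2 : p ^ k < p ^ (p ^ k) := Nat.lt_pow_self hp.out.one_lt
  exact_mod_cast (h1.trans h2).le

/-- The polynomial equation `ξ^p - ξ + T⁻¹ = 0`. -/
lemma mahler_eq : (mahler p) ^ p - mahler p + u p = 0 := by
  have hS : ∀ k, (S p k) ^ p - S p k + u p = (u p) ^ (p ^ (k + 1)) := by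
    intro k
    have : CharP (LaurentSeries (ZMod p)) p := by
      apply charP_of_injective_ringHom (f := (HahnSeries.C : ZMod p →+* LaurentSeries (ZMod p)))
      exact HahnSeries.C_injective
    have : ExpChar (LaurentSeries (ZMod p)) p := ExpChar.prime hp.out
    unfold S
    rw [sum_pow_char]
    have h1 : ∀ j ∈ Finset.range (k + 1), ((u p) ^ (p ^ j)) ^ p = (u p) ^ (p ^ (j + 1)) := by
      intro j _
      rw [← pow_mul, pow_succ]
    rw [Finset.sum_congr rfl h1, Finset.sum_range_succ, Finset.sum_range_succ' (fun j => (u p) ^ (p ^ j))]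
    simp only [pow_zero, pow_one]
    ring
  have hsmall : ∀ k, nm ((mahler p) ^ p - mahler p + u p) ≤ (Hk p k)⁻¹ := by
    intro k
    have h : (mahler p) ^ p - mahler p + u p =
        (((mahler p) ^ p - (S p k) ^ p) - (mahler p - S p k)) + (u p) ^ (p ^ (k + 1)) := by
      rw [← hS k]; ring
    have hb : nm (mahler p - S p k) ≤ (Hk p k)⁻¹ := by
      rw [nm_sub_S]
      apply inv_anti₀ (Hk_pos p k)
      exact le_self_pow₀ (one_lt_Hk p k).le hp.out.ne_zero
    rw [h]
    refine (nm_add_le _ _).trans (max_le ((nm_sub_le _ _).trans (max_le ?_ hb)) ?_)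
    · exact (pow_sub_pow_le (nm_mahler_le p) (nm_S_le p k) p).trans hb
    · rw [nm_pow, nm_u]
      unfold Hk
      rw [inv_pow]
      apply inv_anti₀ (pow_pos (p_pos p) _)
      exact pow_le_pow_right₀ (one_lt_p p).le (Nat.pow_le_pow_right hp.out.pos (by omega))
  by_contra hne
  have hpos := nm_pos hne
  obtain ⟨k, hk⟩ := exists_nat_gt (nm ((mahler p) ^ p - mahler p + u p))⁻¹
  have h1 := hsmall k
  have h2 : (nm ((mahler p) ^ p - mahler p + u p))⁻¹ < Hk p k := hk.trans_le (Hk_ge p k)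
  have h3 : (Hk p k)⁻¹ < nm ((mahler p) ^ p - mahler p + u p) := by
    rw [inv_lt_comm₀ (Hk_pos p k) hpos]; exact h2
  linarith

/-- The polynomial `T X^p - T X + 1`. -/
noncomputable def f : (ZMod p)[X][X] := C X * X ^ p - C X * X + C 1

lemma val_f : val (f p) (mahler p) = 0 := by
  have h : val (f p) (mahler p) = T (ZMod p) * ((mahler p) ^ p - mahler p + u p) := by
    unfold val f
    simp only [eval₂_add, eval₂_sub, eval₂_mul, eval₂_C, eval₂_X, eval₂_pow, emb_X, map_one,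
      eval₂_one]
    rw [mul_add, T_mul_u]
    ring
  rw [h, mahler_eq, mul_zero]

lemma natDegree_f : (f p).natDegree = p := by
  have h2 : 2 ≤ p := hp.out.two_le
  have h0 : f p = C X * X ^ p + (C 1 - C X * X) := by unfold f; ring
  have h1 : (C X * X ^ p : (ZMod p)[X][X]).natDegree = p := by
    rw [natDegree_C_mul_X_pow _ _ X_ne_zero]
  have h3 : (C 1 - C X * X : (ZMod p)[X][X]).natDegree ≤ 1 := by
    compute_degree
  have h4 : (C 1 - C X * X : (ZMod p)[X][X]).natDegree <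
      (C X * X ^ p : (ZMod p)[X][X]).natDegree := by
    rw [h1]; omega
  rw [h0, natDegree_add_eq_left_of_natDegree_lt h4, h1]

lemma coeff_zero_f : (f p).coeff 0 = 1 := by
  unfold f
  simp [hp.out.ne_zero, coeff_X_pow, hp.out.ne_zero.symm]

/-- Annihilators of `ξ` have degree at least `p`. -/
lemma degree_ge {P : (ZMod p)[X][X]} (hP : P ≠ 0) (h : val P (mahler p) = 0) :
    p ≤ P.natDegree := by
  by_contra hlt
  push Not at hlt
  -- for `H_k > ht P`, `P` has the root `S_k`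
  have key : ∀ k, ht P < Hk p k → val P (S p k) = 0 := by
    intro k hk
    by_contra hne
    have h1 := val_lower (Q_ne p k) (P := P) (a := N p k) (by rw [← S_eq]; exact hne)
    rw [← S_eq, nm_Q] at h1
    have h2 : nm (val P (S p k)) ≤ ht P * (Hk p k ^ p)⁻¹ := by
      have := val_sub_le P (nm_mahler_le p) (nm_S_le p k)
      rwa [h, zero_sub, nm_neg, nm_sub_S] at this
    have hH := Hk_pos p k
    have h3 : Hk p k ^ P.natDegree * nm (val P (S p k)) ≤
        Hk p k ^ P.natDegree * (ht P * (Hk p k ^ p)⁻¹) :=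
      mul_le_mul_of_nonneg_left h2 (pow_pos hH _).le
    have h4 : Hk p k ^ P.natDegree * (ht P * (Hk p k ^ p)⁻¹) < 1 := by
      have h5 : Hk p k ^ P.natDegree * ht P < Hk p k ^ p := by
        calc Hk p k ^ P.natDegree * ht P < Hk p k ^ P.natDegree * Hk p k :=
              mul_lt_mul_of_pos_left hk (pow_pos hH _)
          _ = Hk p k ^ (P.natDegree + 1) := by rw [pow_succ]
          _ ≤ Hk p k ^ p := pow_le_pow_right₀ (one_lt_Hk p k).le (by omega)
      rw [← mul_assoc, ← div_eq_mul_inv, div_lt_one (pow_pos hH _)]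
      exact h5
    linarith
  -- but then `ht P ≥ H_k` for large `k`
  obtain ⟨k, hk⟩ := exists_nat_gt (ht P)
  have hk' : ht P < Hk p k := hk.trans_le (Hk_ge p k)
  have h0 := key k hk'
  rw [S_eq] at h0
  have h1 := ht_ge_of_dvd (Q_ne p k) hP (lin_dvd (Q_ne p k) (coprime p k) h0)
  rw [nm_Q] at h1
  linarith

/-- `ξ` is algebraic of degree exactly `p`. -/
lemma isMinDef_f : IsMinDef (f p) (mahler p) := by
  refine ⟨?_, val_f p⟩
  have hf0 : f p ≠ 0 := by
    intro h
    have := natDegree_f p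
    rw [h, natDegree_zero] at this
    exact hp.out.ne_zero this.symm
  have aux : ∀ g h : (ZMod p)[X][X], f p = g * h → val g (mahler p) = 0 → IsUnit h := by
    intro g h hgh hg
    have hg0 : g ≠ 0 := by rintro rfl; simp at hgh; exact hf0 hgh
    have hh0 : h ≠ 0 := by rintro rfl; simp at hgh; exact hf0 hgh
    have h1 := degree_ge p hg0 hg
    have h2 : g.natDegree + h.natDegree = p := by
      rw [← natDegree_mul hg0 hh0, ← hgh, natDegree_f]
    have h3 : h.natDegree = 0 := by omega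
    rw [eq_C_of_natDegree_eq_zero h3]
    apply isUnit_C.mpr
    have h4 : g.coeff 0 * h.coeff 0 = 1 := by
      rw [← mul_coeff_zero, ← hgh, coeff_zero_f]
    exact IsUnit.of_mul_eq_one_right _ h4
  constructor
  · intro hu
    have := natDegree_eq_zero_of_isUnit hu
    rw [natDegree_f] at this
    exact hp.out.ne_zero this
  · intro g h hgh
    have h1 : val g (mahler p) * val h (mahler p) = 0 := by
      rw [← val_f p, hgh]
      unfold val
      rw [eval₂_mul]
    rcases mul_eq_zero.mp h1 with h2 | h2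
    · right; exact aux g h hgh h2
    · left; exact aux h g (by rw [hgh, mul_comm]) h2

lemma natDegree_of_isMinDef {P : (ZMod p)[X][X]} (hP : IsMinDef P (mahler p)) :
    p ≤ P.natDegree := degree_ge p hP.1.ne_zero hP.2

/-- The main inequality: an algebraic `α ≠ P_k/Q_k` of degree `≤ n` and height `< H_k^{p-n}` has
`|ξ - α| ≥ H(α)⁻¹ H_k^{-n}`. -/
lemma main_lower {n k : ℕ} (hn : n ≤ p) {α : LaurentSeries (ZMod p)} {P : (ZMod p)[X][X]}
    (hP : IsMinDef P α) (hd : P.natDegree ≤ n) (hht : ht P < Hk p k ^ (p - n))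
    (hα : α ≠ S p k) : (ht P)⁻¹ * (Hk p k ^ n)⁻¹ ≤ nm (mahler p - α) := by
  have hP0 : P ≠ 0 := hP.1.ne_zero
  have hht1 : 1 ≤ ht P := one_le_ht hP0
  have hH := Hk_pos p k
  -- `P(S_k) ≠ 0`
  have hne : val P (S p k) ≠ 0 := by
    intro h0
    rw [S_eq] at h0
    have hdvd := lin_dvd (Q_ne p k) (coprime p k) h0
    obtain ⟨M, hM⟩ := hdvd
    have hlin : ¬ IsUnit (C (Q p k) * X + C (-(N p k)) : (ZMod p)[X][X]) := by
      intro hu
      have := natDegree_eq_zero_of_isUnit hu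
      rw [natDegree_linear (Q_ne p k)] at this
      omega
    have hMu : IsUnit M := (hP.1.isUnit_or_isUnit hM).resolve_left hlin
    have h1 : val P α = emb (ZMod p) (Q p k) * (α - S p k) * val M α := by
      rw [hM]
      unfold val
      rw [eval₂_mul]
      congr 1
      rw [eval₂_add, eval₂_mul, eval₂_C, eval₂_X, eval₂_C, map_neg, S_mul_Q]
      ring
    have h2 : val M α ≠ 0 := by
      unfold val
      have : IsUnit ((eval₂RingHom (emb (ZMod p)) α) M) := hMu.map _
      exact this.ne_zero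
    rw [hP.2] at h1
    rcases mul_eq_zero.mp h1.symm with h3 | h3
    · rcases mul_eq_zero.mp h3 with h4 | h4
      · exact emb_ne (Q_ne p k) h4
      · exact hα (sub_eq_zero.mp h4)
    · exact h2 h3
  have h1 : (Hk p k ^ n)⁻¹ ≤ nm (val P (S p k)) := by
    have h := val_lower (Q_ne p k) (P := P) (a := N p k) (by rw [← S_eq]; exact hne)
    rw [← S_eq, nm_Q] at h
    rw [inv_le_iff_one_le_mul₀ (pow_pos hH _)]
    calc 1 ≤ Hk p k ^ P.natDegree * nm (val P (S p k)) := h
      _ ≤ Hk p k ^ n * nm (val P (S p k)) := by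
          apply mul_le_mul_of_nonneg_right _ (nm_nonneg _)
          exact pow_le_pow_right₀ (one_lt_Hk p k).le hd
      _ = _ := by ring
  have h2 : nm (val P (mahler p) - val P (S p k)) < (Hk p k ^ n)⁻¹ := by
    refine (val_sub_le P (nm_mahler_le p) (nm_S_le p k)).trans_lt ?_
    rw [nm_sub_S, ← div_eq_mul_inv, div_lt_iff₀ (pow_pos hH _)]
    rw [inv_mul_eq_div, lt_div_iff₀ (pow_pos hH _)]
    calc ht P * Hk p k ^ n < Hk p k ^ (p - n) * Hk p k ^ n :=
          mul_lt_mul_of_pos_right hht (pow_pos hH _)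
      _ = Hk p k ^ p := by rw [← pow_add]; congr 1; omega
  have h3 : (Hk p k ^ n)⁻¹ ≤ nm (val P (mahler p)) := by
    by_contra hcon
    push Not at hcon
    have h4 : nm (val P (S p k)) ≤ max (nm (val P (mahler p))) (nm (val P (mahler p) - val P (S p k))) := by
      have := nm_sub_le (val P (mahler p)) (val P (mahler p) - val P (S p k))
      rwa [sub_sub_cancel] at this
    rcases le_max_iff.mp h4 with h5 | h5 <;> linarith
  -- transfer to `α`
  rcases le_or_gt (nm α) 1 with ha | ha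
  · have h4 := val_sub_le P (nm_mahler_le p) ha
    rw [hP.2, sub_zero] at h4
    have h5 : (Hk p k ^ n)⁻¹ ≤ ht P * nm (mahler p - α) := h3.trans h4
    rw [inv_mul_le_iff₀ (by linarith)]
    exact h5
  · have h4 : nm (mahler p - α) = nm α := by
      rw [nm_sub_comm, sub_eq_add_neg]
      apply nm_add_eq_of_lt
      rw [nm_neg]
      exact (nm_mahler_le p).trans_lt ha
    rw [h4]
    have h5 : (ht P)⁻¹ ≤ 1 := inv_le_one_of_one_le₀ hht1
    have h6 : (Hk p k ^ n)⁻¹ ≤ 1 := inv_le_one_of_one_le₀ (one_le_pow₀ (one_lt_Hk p k).le)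
    have h7 : (ht P)⁻¹ * (Hk p k ^ n)⁻¹ ≤ 1 :=
      mul_le_one₀ h5 (inv_nonneg.mpr (pow_pos hH _).le) h6
    linarith

theorem hatwStar_le {n : ℕ} (hn2 : 1 ≤ n) (hnp : n + 1 ≤ p) :
    hatwStar n (mahler p) ≤ ((((p : ℝ) - 1) / ((p : ℝ) - n) : ℝ) : EReal) := by
  have hpn : (0 : ℝ) < (p : ℝ) - n := by
    have : ((n + 1 : ℕ) : ℝ) ≤ p := by exact_mod_cast hnp
    push_cast at this
    linarith
  have hp1 : (0 : ℝ) < (p : ℝ) - 1 := by linarith [one_lt_p p]
  unfold hatwStar
  apply sSup_le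
  rintro w ⟨r, rfl, H₀, hr⟩
  rw [EReal.coe_le_coe_iff]
  by_contra hcon
  push Not at hcon
  have hr0 : 0 < r := lt_trans (div_pos hp1 hpn) hcon
  -- choose `θ = (p-1)/r < p - n`
  set θ : ℝ := ((p : ℝ) - 1) / r with hθ
  have hθ1 : θ < (p : ℝ) - n := by
    rw [hθ, div_lt_iff₀ hr0]
    rw [div_lt_iff₀ hpn] at hcon
    linarith
  have hθ0 : 0 < θ := div_pos hp1 hr0
  have hθr : θ * r = (p : ℝ) - 1 := by rw [hθ]; field_simp
  -- choose `k` with `H_k^θ > H₀`
  obtain ⟨k, hk⟩ : ∃ k : ℕ, H₀ < (Hk p k) ^ θ := by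
    obtain ⟨k, hk⟩ := exists_nat_gt ((max H₀ 1) ^ (θ⁻¹))
    refine ⟨k, ?_⟩
    have h1 : (max H₀ 1) ^ (θ⁻¹) < Hk p k := hk.trans_le (Hk_ge p k)
    have h0 : (0 : ℝ) ≤ max H₀ 1 := le_max_of_le_right zero_le_one
    have h2 : ((max H₀ 1) ^ (θ⁻¹)) ^ θ < (Hk p k) ^ θ :=
      Real.rpow_lt_rpow (Real.rpow_nonneg h0 _) h1 hθ0
    rw [← Real.rpow_mul h0, inv_mul_cancel₀ hθ0.ne', Real.rpow_one] at h2
    exact (le_max_left _ _).trans_lt h2
  have hH := Hk_pos p k
  obtain ⟨α, P, hP, hd, hht, -, hlt⟩ := hr _ hk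
  have hHr : ((Hk p k) ^ θ) ^ (-r) = (Hk p k ^ (p - 1))⁻¹ := by
    rw [← Real.rpow_mul hH.le, mul_neg, hθr, Real.rpow_neg hH.le]
    congr 1
    rw [← Real.rpow_natCast]
    congr 1
    rw [Nat.cast_sub hp.out.one_lt.le]; simp
  rw [hHr] at hlt
  have hP0 : P ≠ 0 := hP.1.ne_zero
  have hht1 : 1 ≤ ht P := one_le_ht hP0
  by_cases hα : α = S p k
  · -- `α = P_k/Q_k`, of height at least `H_k`
    subst hα
    rw [nm_sub_S] at hlt
    have h0 := hP.2
    rw [S_eq] at h0
    have h1 := ht_ge_of_dvd (Q_ne p k) hP0 (lin_dvd (Q_ne p k) (coprime p k) h0)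
    rw [nm_Q] at h1
    have h2 : (ht P)⁻¹ * (Hk p k ^ (p - 1))⁻¹ ≤ (Hk p k ^ p)⁻¹ := by
      have h3 : Hk p k ^ p = Hk p k * Hk p k ^ (p - 1) := by
        rw [← pow_succ']; congr 1; have := hp.out.one_lt; omega
      rw [h3, mul_inv]
      apply mul_le_mul_of_nonneg_right _ (inv_nonneg.mpr (pow_pos hH _).le)
      exact inv_anti₀ hH h1
    linarith
  · have hht2 : ht P < Hk p k ^ (p - n) := by
      refine hht.trans_lt ?_
      have h1 : Hk p k ^ (p - n) = Hk p k ^ ((p : ℝ) - n) := by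
        rw [← Real.rpow_natCast]
        congr 1
        rw [Nat.cast_sub (by omega)]
      rw [h1]
      exact Real.rpow_lt_rpow_of_exponent_lt (one_lt_Hk p k) hθ1
    have h1 := main_lower p (by omega) hP hd hht2 hα
    have h2 : (ht P)⁻¹ * (Hk p k ^ (p - 1))⁻¹ ≤ (ht P)⁻¹ * (Hk p k ^ n)⁻¹ := by
      apply mul_le_mul_of_nonneg_left _ (inv_nonneg.mpr (by linarith))
      apply inv_anti₀ (pow_pos hH _)
      exact pow_le_pow_right₀ (one_lt_Hk p k).le (by omega)
    linarith

end Mahler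

end Pool.Agent.R330.MA
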